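import Mathlib

namespace Pool.Agent.Work.MP_8a50a7_gt

/-- The vertex index of `K ⊆ ℝ³`: the infimum of `∑ ‖p i‖_K` over finite families of points
whose convex hull contains `K`; `‖·‖_K` is Mathlib's `gauge K`. -/
noncomputable def vein (K : Set (EuclideanSpace ℝ (Fin 3))) : ℝ :=
  sInf {s : ℝ | ∃ (N : ℕ) (p : Fin N → EuclideanSpace ℝ (Fin 3)),
    K ⊆ convexHull ℝ (Set.range p) ∧ s = ∑ i, gauge K (p i)}

end Pool.Agent.Work.MP_8a50a7_gt
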