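import Mathlib
import Pool.Agent.Work.MP_8a50a7_gt.Defs

-- merged part: Pool.Agent.Work.MP_8a50a7_gt.John
section
-- merged part: Pool.Agent.Work.MP_8a50a7_gt.Hull
section
/-! Convex hull of a compact set in a finite-dimensional space is compact (Caratheodory). -/

namespace Pool.Agent.Work.MP_8a50a7_gt

open Set

theorem isCompact_convexHull_of_isCompact {n : ℕ} {S : Set (Fin n → ℝ)} (hS : IsCompact S) :
    IsCompact (convexHull ℝ S) := by
  classical
  let f : (Fin (n + 1) → ℝ) × (Fin (n + 1) → Fin n → ℝ) → (Fin n → ℝ) :=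
    fun q => ∑ j, q.1 j • q.2 j
  have hf : Continuous f := by
    refine continuous_finsetSum _ fun j _ => ?_
    fun_prop
  have hc : IsCompact ((stdSimplex ℝ (Fin (n + 1))) ×ˢ (Set.pi univ fun _ : Fin (n + 1) => S)) :=
    (isCompact_stdSimplex ℝ _).prod (isCompact_univ_pi fun _ => hS)
  have heq : convexHull ℝ S =
      f '' ((stdSimplex ℝ (Fin (n + 1))) ×ˢ (Set.pi univ fun _ : Fin (n + 1) => S)) := by
    apply Subset.antisymm
    · intro x hx
      obtain ⟨ι, hι, z, w, hz, hai, hw, hw1, hx'⟩ := eq_pos_convex_span_of_mem_convexHull hx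
      have hcard : Fintype.card ι ≤ Fintype.card (Fin (n + 1)) := by
        have h1 := hai.card_le_finrank_succ
        have h2 : Module.finrank ℝ (vectorSpan ℝ (range z)) ≤ Module.finrank ℝ (Fin n → ℝ) :=
          Submodule.finrank_le _
        simp only [Module.finrank_fintype_fun_eq_card, Fintype.card_fin] at h2
        simp only [Fintype.card_fin]
        omega
      obtain ⟨e⟩ := Function.Embedding.nonempty_of_card_le hcard
      have hne : Nonempty ι := by
        by_contra h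
        rw [not_nonempty_iff] at h
        simp at hw1
      obtain ⟨i0⟩ := hne
      have hs0 : z i0 ∈ S := hz ⟨i0, rfl⟩
      refine ⟨(Function.extend e w 0, Function.extend e z fun _ => z i0), ⟨⟨?_, ?_⟩, ?_⟩, ?_⟩
      · intro j
        by_cases hj : ∃ i, e i = j
        · obtain ⟨i, rfl⟩ := hj
          simp only [e.injective.extend_apply]
          exact (hw i).le
        · simp [Function.extend_apply' _ _ _ hj]
      · rw [← hw1]
        symm
        refine Fintype.sum_of_injective e e.injective _ _ ?_ ?_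
        · intro j hj
          simp [Function.extend_apply' _ _ _ hj]
        · intro i
          simp only [e.injective.extend_apply]
      · intro j _
        by_cases hj : ∃ i, e i = j
        · obtain ⟨i, rfl⟩ := hj
          simp only [e.injective.extend_apply]
          exact hz ⟨i, rfl⟩
        · simp only [Function.extend_apply' _ _ _ hj]
          exact hs0
      · rw [← hx']
        symm
        refine Fintype.sum_of_injective e e.injective _ _ ?_ ?_
        · intro j hj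
          simp [Function.extend_apply' _ _ _ hj]
        · intro i
          simp only [e.injective.extend_apply]
    · rintro _ ⟨⟨w, z⟩, ⟨⟨hw0, hw1⟩, hz⟩, rfl⟩
      exact (convex_convexHull ℝ S).sum_mem (fun j _ => hw0 j) hw1
        (fun j _ => subset_convexHull ℝ S (hz j (mem_univ _)))
  rw [heq]
  exact hc.image hf

end Pool.Agent.Work.MP_8a50a7_gt
end

-- merged part: Pool.Agent.Work.MP_8a50a7_gt.John
section
/-! John decomposition in dimension three with at most six contact points. -/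

namespace Pool.Agent.Work.MP_8a50a7_gt

open Set Matrix
open scoped MatrixOrder

/-- Coordinates of the symmetric matrix `x xᵀ`. -/
def quad (x : Fin 3 → ℝ) : Fin 6 → ℝ :=
  ![x 0 * x 0, x 1 * x 1, x 2 * x 2, x 0 * x 1, x 0 * x 2, x 1 * x 2]

/-- The symmetric matrix with given six coordinates. -/
def symm6 : (Fin 6 → ℝ) →ₗ[ℝ] Matrix (Fin 3) (Fin 3) ℝ where
  toFun s := !![s 0, s 3, s 4; s 3, s 1, s 5; s 4, s 5, s 2]
  map_add' s t := by
    ext i j
    fin_cases i <;> fin_cases j <;> simp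
  map_smul' a s := by
    ext i j
    fin_cases i <;> fin_cases j <;> simp

theorem symm6_quad (x : Fin 3 → ℝ) : symm6 (quad x) = vecMulVec x x := by
  ext i j
  fin_cases i <;> fin_cases j <;> simp [symm6, quad, vecMulVec_apply] <;> ring

theorem continuous_quad : Continuous quad := by
  refine continuous_pi fun i => ?_
  fin_cases i <;> simp [quad] <;> fun_prop

theorem vecMulVec_mulVec' (A : Matrix (Fin 3) (Fin 3) ℝ) (u : Fin 3 → ℝ) :
    vecMulVec (A *ᵥ u) (A *ᵥ u) = A * vecMulVec u u * Aᵀ := by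
  ext i j
  simp [vecMulVec_apply, mulVec, dotProduct, mul_apply, Fin.sum_univ_three]
  ring

theorem det_rank_one (a t : ℝ) (u : Fin 3 → ℝ) :
    (a • (1 : Matrix (Fin 3) (Fin 3) ℝ) + t • vecMulVec u u).det
      = a ^ 2 * (a + t * (u ⬝ᵥ u)) := by
  rw [det_fin_three]
  simp [vecMulVec_apply, dotProduct, Fin.sum_univ_three]
  ring

theorem le_one_of_poly {s : ℝ}
    (h : ∀ t : ℝ, 0 ≤ t → t ≤ 1 → (1 - t) ^ 2 * (1 - t + 3 * t * s) ≤ 1) : s ≤ 1 := by
  by_contra hs
  push Not at hs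
  set d := 3 * s - 3 with hd
  have hd0 : 0 < d := by linarith
  set t := d / (4 * (2 + d)) with ht
  have ht0 : 0 < t := by positivity
  have htd : t * (4 * (2 + d)) = d := by rw [ht]; field_simp
  have ht1 : t ≤ 1 / 4 := by (refine le_of_not_gt fun h_nl => ?_; linarith only [h_nl, ht0, htd, hs, mul_pos_of_neg_of_neg (Mathlib.Tactic.Linarith.sub_neg_of_lt hs) (Mathlib.Tactic.Linarith.sub_neg_of_lt h_nl)])
  have h1 := h t ht0.le (by linarith only [ht0, ht1])
  have h2 : 1 - t + 3 * t * s = 1 + t * (2 + d) := by rw [hd]; ring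
  rw [h2] at h1
  have h3 : (1 - 2 * t) * (1 + t * (2 + d)) ≤ (1 - t) ^ 2 * (1 + t * (2 + d)) := by
    apply mul_le_mul_of_nonneg_right
    · linarith only [ht0, mul_pos_of_neg_of_neg (Mathlib.Tactic.Linarith.sub_neg_of_lt ht0) (Mathlib.Tactic.Linarith.sub_neg_of_lt ht0)]
    · positivity
  have h4 : (1 - 2 * t) * (1 + t * (2 + d)) = 1 + t * (d - 2 * (t * (2 + d))) := by ring
  have h5 : d - 2 * (t * (2 + d)) = d / 2 := by linarith only [htd]
  rw [h4, h5] at h3
  have : 0 < t * (d / 2) := by positivity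
  linarith only [h1, h3, this]

theorem john3 {S : Set (Fin 3 → ℝ)} (hS : IsCompact S) {r : ℝ} (hr : 0 < r)
    (hmem : ∀ k, (Pi.single k r : Fin 3 → ℝ) ∈ S) :
    ∃ (A : Matrix (Fin 3) (Fin 3) ℝ) (ι : Type) (_ : Fintype ι) (u : ι → Fin 3 → ℝ)
      (c : ι → ℝ) (i0 : ι), (∀ i, u i ⬝ᵥ u i = 1) ∧ (∀ i, A *ᵥ u i ∈ S) ∧ (∀ i, 0 ≤ c i) ∧
      ∑ i, c i = 3 ∧ ∑ i, c i • vecMulVec (u i) (u i) = 1 ∧
      (∀ x ∈ S, ∃ y, y ⬝ᵥ y ≤ 1 ∧ A *ᵥ y = x) ∧ 1 / 2 ≤ c i0 := by
  classical
  have hH : IsCompact (convexHull ℝ (quad '' S)) :=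
    isCompact_convexHull_of_isCompact (hS.image continuous_quad)
  have hcont : Continuous fun s : Fin 6 → ℝ => (symm6 s).det :=
    (symm6.continuous_of_finiteDimensional).matrix_det
  have hin : ∀ x ∈ S, quad x ∈ convexHull ℝ (quad '' S) := fun x hx =>
    subset_convexHull ℝ _ ⟨x, hx, rfl⟩
  obtain ⟨s, hs, hmax⟩ := hH.exists_isMaxOn ⟨_, hin _ (hmem 0)⟩ hcont.continuousOn
  have hpos : 0 < (symm6 s).det := by
    have h1 : ∑ k : Fin 3, (1 / 3 : ℝ) • quad (Pi.single k r) ∈ convexHull ℝ (quad '' S) :=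
      (convex_convexHull ℝ _).sum_mem (fun _ _ => by norm_num) (by simp)
        (fun k _ => hin _ (hmem k))
    have h2 := hmax h1
    have h3 : (symm6 (∑ k : Fin 3, (1 / 3 : ℝ) • quad (Pi.single k r))).det
        = (r * r / 3) ^ 3 := by
      rw [det_fin_three]
      simp [symm6, quad, Fin.sum_univ_three]
      ring
    simp only [mem_ofPred_eq] at h2
    rw [h3] at h2
    exact lt_of_lt_of_le (by positivity) h2
  obtain ⟨ι, hι, z, w, hz, hai, hw, hw1, hzs⟩ := eq_pos_convex_span_of_mem_convexHull hs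
  have hx : ∀ i, ∃ x ∈ S, quad x = z i := fun i => hz ⟨i, rfl⟩
  choose x hxS hxz using hx
  have hM : symm6 s = ∑ i, w i • vecMulVec (x i) (x i) := by
    rw [← hzs, map_sum]
    refine Finset.sum_congr rfl fun i _ => ?_
    rw [map_smul, ← hxz, symm6_quad]
  have hpsd : (0 : Matrix (Fin 3) (Fin 3) ℝ) ≤ (3 : ℝ) • symm6 s := by
    rw [hM]
    refine smul_nonneg (by norm_num) (Finset.sum_nonneg fun i _ => smul_nonneg (hw i).le ?_)
    have := posSemidef_vecMulVec_self_star (R := ℝ) (x i)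
    simpa using this.nonneg
  obtain ⟨B, hB⟩ := CStarAlgebra.nonneg_iff_eq_star_mul_self.mp hpsd
  obtain ⟨A, hAA⟩ : ∃ A : Matrix (Fin 3) (Fin 3) ℝ, A * Aᵀ = (3 : ℝ) • symm6 s := ⟨Bᵀ, by
    rw [hB, transpose_transpose, star_eq_conjTranspose, conjTranspose_eq_transpose_of_trivial]⟩
  have hdet : A.det ^ 2 = 27 * (symm6 s).det := by
    have := congrArg det hAA
    rw [det_mul, det_transpose, det_smul] at this
    simp only [Fintype.card_fin] at this
    nlinarith
  have hA0 : A.det ≠ 0 := by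
    intro h
    rw [h] at hdet
    linarith only [hpos, hdet]
  have hAu : IsUnit A.det := isUnit_iff_ne_zero.mpr hA0
  have hinv : ∀ v : Fin 3 → ℝ, A *ᵥ (A⁻¹ *ᵥ v) = v := fun v => by
    rw [mulVec_mulVec, mul_nonsing_inv _ hAu, one_mulVec]
  have hle : ∀ v ∈ S, (A⁻¹ *ᵥ v) ⬝ᵥ (A⁻¹ *ᵥ v) ≤ 1 := by
    intro v hv
    set y := A⁻¹ *ᵥ v with hy
    apply le_one_of_poly
    intro t ht0 ht1
    have h1 : (1 - t) • s + t • quad v ∈ convexHull ℝ (quad '' S) :=
      (convex_convexHull ℝ _) hs (hin v hv) (by linarith) ht0 (by ring)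
    have h2 := hmax h1
    simp only [mem_ofPred_eq] at h2
    have h3 : symm6 ((1 - t) • s + t • quad v)
        = A * (((1 - t) / 3) • (1 : Matrix (Fin 3) (Fin 3) ℝ) + t • vecMulVec y y) * Aᵀ := by
      rw [map_add, map_smul, map_smul, symm6_quad, Matrix.mul_add, Matrix.add_mul,
        Matrix.mul_smul, Matrix.smul_mul, Matrix.mul_one, hAA, Matrix.mul_smul, Matrix.smul_mul,
        ← vecMulVec_mulVec', hy, hinv, smul_smul]
      congr 2
      ring
    rw [h3, det_mul, det_mul, det_transpose, det_rank_one] at h2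
    have h4 : A.det * (((1 - t) / 3) ^ 2 * ((1 - t) / 3 + t * y ⬝ᵥ y)) * A.det
        = (symm6 s).det * ((1 - t) ^ 2 * (1 - t + 3 * t * y ⬝ᵥ y)) := by
      have : A.det * (((1 - t) / 3) ^ 2 * ((1 - t) / 3 + t * y ⬝ᵥ y)) * A.det
          = A.det ^ 2 * (((1 - t) / 3) ^ 2 * ((1 - t) / 3 + t * y ⬝ᵥ y)) := by ring
      rw [this, hdet]
      ring
    rw [h4] at h2
    exact le_of_mul_le_mul_left (by linarith only [h2]) hpos
  set u : ι → Fin 3 → ℝ := fun i => A⁻¹ *ᵥ x i with hu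
  have hAux : ∀ i, A *ᵥ u i = x i := fun i => hinv _
  have hJ : ∑ i, (3 * w i) • vecMulVec (u i) (u i) = 1 := by
    have h1 : A * (∑ i, (3 * w i) • vecMulVec (u i) (u i)) * Aᵀ = A * 1 * Aᵀ := by
      rw [Matrix.mul_one, hAA, hM, Matrix.mul_sum, Matrix.sum_mul, Finset.smul_sum]
      refine Finset.sum_congr rfl fun i _ => ?_
      rw [Matrix.mul_smul, Matrix.smul_mul, ← vecMulVec_mulVec', hAux, smul_smul]
    have hAT : IsUnit Aᵀ.det := by rwa [det_transpose]
    have h2 := congrArg (fun X => A⁻¹ * X * Aᵀ⁻¹) h1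
    simp only [Matrix.mul_assoc, mul_nonsing_inv _ hAT, Matrix.mul_one] at h2
    simpa only [← Matrix.mul_assoc, nonsing_inv_mul _ hAu, Matrix.one_mul] using h2
  have htr : ∑ i, (3 * w i) * (u i ⬝ᵥ u i) = 3 := by
    have := congrArg trace hJ
    rw [trace_sum, trace_one] at this
    simp only [trace_smul, trace_vecMulVec, smul_eq_mul, Fintype.card_fin] at this
    exact_mod_cast this
  have hsum : ∑ i, 3 * w i = 3 := by rw [← Finset.mul_sum, hw1]; norm_num
  have hunit : ∀ i, u i ⬝ᵥ u i = 1 := by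
    have h0 : ∑ i, (3 * w i) * (1 - u i ⬝ᵥ u i) = 0 := by
      simp only [mul_sub, mul_one, Finset.sum_sub_distrib, hsum, htr, sub_self]
    rw [Finset.sum_eq_zero_iff_of_nonneg] at h0
    · intro i
      have h1 := h0 i (Finset.mem_univ _)
      have h2 := hw i
      rcases mul_eq_zero.mp h1 with h | h
      · linarith only [h2, h]
      · linarith only [h]
    · intro i _
      have h1 := hle _ (hxS i)
      have h2 := hw i
      exact mul_nonneg (by linarith) (by linarith)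
  have hli : LinearIndependent ℝ z := by
    rw [Fintype.linearIndependent_iff]
    intro g hg
    have h1 : ∑ i, g i • vecMulVec (x i) (x i) = 0 := by
      have := congrArg symm6 hg
      rw [map_sum, map_zero] at this
      rw [← this]
      refine Finset.sum_congr rfl fun i _ => ?_
      rw [map_smul, ← hxz, symm6_quad]
    have h2 : A * (∑ i, g i • vecMulVec (u i) (u i)) * Aᵀ = 0 := by
      rw [← h1, Matrix.mul_sum, Matrix.sum_mul]
      refine Finset.sum_congr rfl fun i _ => ?_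
      rw [Matrix.mul_smul, Matrix.smul_mul, ← vecMulVec_mulVec', hAux]
    have hAT : IsUnit Aᵀ.det := by rwa [det_transpose]
    have h3 := congrArg (fun X => A⁻¹ * X * Aᵀ⁻¹) h2
    simp only [Matrix.mul_assoc, mul_nonsing_inv _ hAT, Matrix.mul_one] at h3
    simp only [← Matrix.mul_assoc, nonsing_inv_mul _ hAu, Matrix.one_mul, Matrix.mul_zero,
      Matrix.zero_mul] at h3
    have h4 := congrArg trace h3
    rw [trace_sum, trace_zero] at h4
    simp only [trace_smul, trace_vecMulVec, smul_eq_mul, hunit, mul_one] at h4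
    intro i
    exact hai.eq_zero_of_sum_eq_zero h4 hg i (Finset.mem_univ _)
  have hcard : Fintype.card ι ≤ 6 := by
    simpa using hli.fintype_card_le_finrank
  have hex : ∃ i0, 1 / 2 ≤ 3 * w i0 := by
    by_contra h
    push Not at h
    have hne : Nonempty ι := by
      by_contra h'
      rw [not_nonempty_iff] at h'
      simp at hw1
    have h1 : ∑ i, 3 * w i < ∑ _i : ι, (1 / 2 : ℝ) :=
      Finset.sum_lt_sum_of_nonempty Finset.univ_nonempty fun i _ => h i
    rw [hsum, Finset.sum_const, Finset.card_univ, nsmul_eq_mul] at h1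
    have h2 : (Fintype.card ι : ℝ) ≤ 6 := by exact_mod_cast hcard
    linarith only [h1, h2]
  obtain ⟨i0, hi0⟩ := hex
  refine ⟨A, ι, hι, u, fun i => 3 * w i, i0, hunit, fun i => ?_, fun i => ?_, hsum, hJ,
    fun v hv => ⟨A⁻¹ *ᵥ v, hle v hv, hinv v⟩, hi0⟩
  · rw [hAux]; exact hxS i
  · have := hw i
    positivity

end Pool.Agent.Work.MP_8a50a7_gt
end
end

-- merged part: Pool.Agent.Work.MP_8a50a7_gt.Avg
section
/-! Averaging over rotations of a plane. -/

namespace Pool.Agent.Work.MP_8a50a7_gt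

open Real intervalIntegral

theorem integral_abs_cos_shift (φ : ℝ) : ∫ θ in (0 : ℝ)..π, |cos (θ - φ)| = 2 := by
  have hper : Function.Periodic (fun θ : ℝ => |cos θ|) π := fun θ => by simp
  have h1 : ∫ θ in (0 : ℝ)..π, |cos (θ - φ)| = ∫ θ in (0 - φ)..(π - φ), |cos θ| :=
    intervalIntegral.integral_comp_sub_right (fun θ => |cos θ|) φ
  have h2 := hper.intervalIntegral_add_eq (0 - φ) (-(π / 2))
  have h3 : 0 - φ + π = π - φ := by ring
  have h4 : -(π / 2) + π = π / 2 := by ring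
  rw [h3, h4] at h2
  rw [h1, h2]
  have h5 : ∫ θ in (-(π / 2))..(π / 2), |cos θ| = ∫ θ in (-(π / 2))..(π / 2), cos θ := by
    apply intervalIntegral.integral_congr
    intro θ hθ
    rw [Set.uIcc_of_le (by linarith only [pi_pos])] at hθ
    exact abs_of_nonneg (cos_nonneg_of_mem_Icc hθ)
  rw [h5, integral_cos]
  simp
  norm_num

theorem integral_abs_comb (a b : ℝ) :
    ∫ θ in (0 : ℝ)..π, |a * cos θ + b * sin θ| = 2 * √(a ^ 2 + b ^ 2) := by
  set z : ℂ := ⟨a, b⟩ with hz
  have hn : ‖z‖ = √(a ^ 2 + b ^ 2) := by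
    rw [Complex.norm_eq_sqrt_sq_add_sq]
  have ha : ‖z‖ * cos (Complex.arg z) = a := Complex.norm_mul_cos_arg z
  have hb : ‖z‖ * sin (Complex.arg z) = b := Complex.norm_mul_sin_arg z
  have h1 : ∀ θ : ℝ, |a * cos θ + b * sin θ| = ‖z‖ * |cos (θ - Complex.arg z)| := by
    intro θ
    rw [cos_sub, ← abs_of_nonneg (norm_nonneg z), ← abs_mul]
    congr 1
    conv_lhs => rw [← ha, ← hb]
    ring
  simp_rw [h1]
  rw [intervalIntegral.integral_const_mul, integral_abs_cos_shift, hn]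
  ring

theorem exists_angle {ι : Type*} [Fintype ι] (c a b : ι → ℝ) :
    ∃ θ : ℝ, π * ∑ i, c i * (|a i * cos θ + b i * sin θ| + |b i * cos θ + (-a i) * sin θ|)
      ≤ 4 * ∑ i, c i * √(a i ^ 2 + b i ^ 2) := by
  set F : ℝ → ℝ := fun θ =>
    ∑ i, c i * (|a i * cos θ + b i * sin θ| + |b i * cos θ + (-a i) * sin θ|) with hF
  have hFc : Continuous F := by
    refine continuous_finsetSum _ fun i _ => ?_
    fun_prop
  have hint : ∫ θ in (0 : ℝ)..π, F θ = 4 * ∑ i, c i * √(a i ^ 2 + b i ^ 2) := by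
    rw [hF, intervalIntegral.integral_finsetSum, Finset.mul_sum]
    · refine Finset.sum_congr rfl fun i _ => ?_
      rw [intervalIntegral.integral_const_mul, intervalIntegral.integral_add,
        integral_abs_comb, integral_abs_comb]
      · rw [neg_sq, add_comm (b i ^ 2)]
        ring
      · exact Continuous.intervalIntegrable (by fun_prop) _ _
      · exact Continuous.intervalIntegrable (by fun_prop) _ _
    · intro i _
      exact Continuous.intervalIntegrable (by fun_prop) _ _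
  obtain ⟨θ, hθ, hmin⟩ := (isCompact_Icc (a := (0 : ℝ)) (b := π)).exists_isMinOn
    ⟨0, le_rfl, pi_pos.le⟩ hFc.continuousOn
  refine ⟨θ, ?_⟩
  have h1 : ∫ _ in (0 : ℝ)..π, F θ ≤ ∫ x in (0 : ℝ)..π, F x :=
    intervalIntegral.integral_mono_on pi_pos.le (by simp) (hFc.intervalIntegrable _ _)
      (fun x hx => hmin hx)
  rw [hint, intervalIntegral.integral_const, sub_zero, smul_eq_mul] at h1
  exact h1

end Pool.Agent.Work.MP_8a50a7_gt
end

-- merged part: Pool.Agent.Work.MP_8a50a7_gt.Main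
section
/-! The bound `vein K ≤ 13.27`. -/

namespace Pool.Agent.Work.MP_8a50a7_gt

open Set Matrix Real
open scoped RealInnerProductSpace

abbrev E3 := EuclideanSpace ℝ (Fin 3)

theorem johnE {K : Set E3} (hK : IsCompact K) {r : ℝ} (hr : 0 < r)
    (hball : Metric.closedBall (0 : E3) r ⊆ K) :
    ∃ (T : E3 →ₗ[ℝ] E3) (ι : Type) (_ : Fintype ι) (u : ι → E3) (c : ι → ℝ) (i0 : ι),
      (∀ i, ‖u i‖ = 1) ∧ (∀ i, T (u i) ∈ K) ∧ (∀ i, 0 ≤ c i) ∧ ∑ i, c i = 3 ∧
      (∀ y, ∑ i, (c i * ⟪u i, y⟫) • u i = y) ∧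
      (∀ x ∈ K, ∃ y, ‖y‖ ≤ 1 ∧ T y = x) ∧ 1 / 2 ≤ c i0 := by
  have hS : IsCompact ((fun x : E3 => x.ofLp) '' K) := hK.image (by fun_prop)
  have hmem : ∀ k, (Pi.single k r : Fin 3 → ℝ) ∈ (fun x : E3 => x.ofLp) '' K := by
    intro k
    refine ⟨EuclideanSpace.single k r, hball ?_, rfl⟩
    simp [abs_of_pos hr]
  obtain ⟨A, ι, hι, u, c, i0, h1, h2, h3, h4, h5, h6, h7⟩ := john3 hS hr hmem
  let L := WithLp.linearEquiv 2 ℝ (Fin 3 → ℝ)
  let T : E3 →ₗ[ℝ] E3 := L.symm.toLinearMap ∘ₗ A.mulVecLin ∘ₗ L.toLinearMap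
  have hT : ∀ y : Fin 3 → ℝ, T (WithLp.toLp 2 y) = WithLp.toLp 2 (A *ᵥ y) := fun y => rfl
  have hn : ∀ y : Fin 3 → ℝ, ‖(WithLp.toLp 2 y : E3)‖ ^ 2 = y ⬝ᵥ y := by
    intro y
    rw [EuclideanSpace.real_norm_sq_eq]
    simp [dotProduct, sq]
  refine ⟨T, ι, hι, fun i => WithLp.toLp 2 (u i), c, i0, fun i => ?_, fun i => ?_, h3, h4,
    fun y => ?_, fun x hx => ?_, h7⟩
  · have := hn (u i)
    rw [h1] at this
    exact (sq_eq_sq₀ (norm_nonneg _) zero_le_one).mp (by simpa using this)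
  · obtain ⟨x, hx, hx'⟩ := h2 i
    rw [hT, ← hx']
    exact hx
  · have h := congrArg (fun M => M *ᵥ y.ofLp) h5
    simp only [one_mulVec, sum_mulVec, smul_mulVec, vecMulVec_mulVec] at h
    apply (WithLp.ofLp_injective 2)
    rw [← h, WithLp.ofLp_sum]
    refine Finset.sum_congr rfl fun i _ => ?_
    ext k
    simp [EuclideanSpace.inner_eq_star_dotProduct, dotProduct_comm, mul_comm, mul_left_comm]
  · obtain ⟨y, hy, hy'⟩ := h6 x.ofLp ⟨x, hx, rfl⟩
    refine ⟨WithLp.toLp 2 y, ?_, by rw [hT, hy']⟩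
    have := hn y
    (refine le_of_not_gt fun h_nl => ?_; linarith only [h_nl, hy, this, norm_nonneg (WithLp.toLp 2 y : E3), mul_pos_of_neg_of_neg (Mathlib.Tactic.Linarith.sub_neg_of_lt h_nl) (Mathlib.Tactic.Linarith.sub_neg_of_lt h_nl)])

theorem mem_hull_six {V : Type*} [AddCommGroup V] [Module ℝ V] {C : Set V} (hC : Convex ℝ C)
    {P Q R : V} (hP : P ∈ C) (hP' : -P ∈ C) (hQ : Q ∈ C) (hQ' : -Q ∈ C) (hR : R ∈ C)
    (hR' : -R ∈ C) {α β γ : ℝ} (h : |α| + |β| + |γ| ≤ 1) : α • P + β • Q + γ • R ∈ C := by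
  set d := (1 - (|α| + |β| + |γ|)) / 2 with hd
  have hd0 : 0 ≤ d := by rw [hd]; linarith only [h]
  have := hC.sum_mem (t := Finset.univ)
    (w := ![(|α| + α) / 2 + d, (|α| - α) / 2 + d, (|β| + β) / 2, (|β| - β) / 2,
      (|γ| + γ) / 2, (|γ| - γ) / 2]) (z := ![P, -P, Q, -Q, R, -R]) ?_ ?_ ?_
  · convert this using 1
    simp only [Fin.sum_univ_succ, Fin.sum_univ_zero, Matrix.cons_val_zero, Matrix.cons_val_succ]
    module
  · intro i _
    have := le_abs_self α
    have := neg_abs_le α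
    have := le_abs_self β
    have := neg_abs_le β
    have := le_abs_self γ
    have := neg_abs_le γ
    fin_cases i <;> simp <;> linarith
  · simp only [Fin.sum_univ_succ, Fin.sum_univ_zero, Matrix.cons_val_zero, Matrix.cons_val_succ]
    rw [hd]
    ring
  · intro i _
    fin_cases i <;> simpa

theorem vein_le {K : Set E3} (hK : IsCompact K) (hc : Convex ℝ K)
    (hi : (interior K).Nonempty) (hs : K = -K) : vein K ≤ 13.27 := by
  classical
  have hsym : ∀ x ∈ K, -x ∈ K := fun x hx => by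
    rw [hs]
    simpa using hx
  have h0 : (0 : E3) ∈ interior K := by
    obtain ⟨x, hx⟩ := hi
    have h1 : -x ∈ K := hsym x (interior_subset hx)
    have := hc.combo_interior_self_mem_interior hx h1 (a := 1 / 2) (b := 1 / 2) (by norm_num)
      (by norm_num) (by norm_num)
    simpa using this
  have hnh : K ∈ nhds (0 : E3) := mem_interior_iff_mem_nhds.mp h0
  have habs : Absorbent ℝ K := absorbent_nhds_zero hnh
  obtain ⟨r, hr, hball⟩ := Metric.nhds_basis_closedBall.mem_iff.mp hnh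
  obtain ⟨T, ι, hι, u, c, i0, h1, h2, h3, h4, h5, h6, h7⟩ := johnE hK hr hball
  have hgs : ∀ (t : ℝ) (x : E3), gauge K (t • x) = |t| * gauge K x := by
    intro t x
    rcases le_total 0 t with ht | ht
    · rw [gauge_smul_of_nonneg ht, abs_of_nonneg ht, smul_eq_mul]
    · have : t • x = -((-t) • x) := by simp
      rw [this, gauge_neg hsym, gauge_smul_of_nonneg (by linarith only [ht]), abs_of_nonpos ht, smul_eq_mul]
  have hg : ∀ y, gauge K (T y) ≤ ∑ i, c i * |⟪u i, y⟫| := by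
    intro y
    conv_lhs => rw [← h5 y, map_sum]
    refine (gauge_sum_le hc habs _ _).trans (Finset.sum_le_sum fun i _ => ?_)
    rw [map_smul, hgs, abs_mul, abs_of_nonneg (h3 i)]
    have := gauge_le_one_of_mem (h2 i)
    have h8 : 0 ≤ c i * |⟪u i, y⟫| := mul_nonneg (h3 i) (abs_nonneg _)
    linarith only [this, h8, mul_nonneg_of_nonpos_of_nonpos (Mathlib.Tactic.Linarith.sub_nonpos_of_le this) (Mathlib.Tactic.Linarith.sub_nonpos_of_le h8)]
  obtain ⟨b, hb⟩ : ∃ b : OrthonormalBasis (Fin 3) ℝ E3, b 0 = u i0 := by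
    have ho : Orthonormal ℝ (({0} : Set (Fin 3)).domRestrict fun _ : Fin 3 => u i0) := by
      refine ⟨fun i => h1 i0, fun i j hij => (hij ?_).elim⟩
      exact Subsingleton.elim _ _
    obtain ⟨b, hb⟩ := ho.exists_orthonormalBasis_extension_of_card_eq (by simp)
    exact ⟨b, hb 0 rfl⟩
  have hbo := b.orthonormal
  set a1 : ι → ℝ := fun i => ⟪u i, b 1⟫ with ha1
  set a2 : ι → ℝ := fun i => ⟪u i, b 2⟫ with ha2
  have hsq : ∀ k, ∑ i, c i * ⟪u i, b k⟫ ^ 2 = 1 := by
    intro k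
    have h := congrArg (fun z => ⟪z, b k⟫) (h5 (b k))
    simp only [sum_inner, real_inner_smul_left] at h
    rw [real_inner_self_eq_norm_sq, hbo.1 k, one_pow] at h
    rw [← h]
    refine Finset.sum_congr rfl fun i _ => ?_
    ring
  have hr0 : √(a1 i0 ^ 2 + a2 i0 ^ 2) = 0 := by
    have e1 : a1 i0 = 0 := by
      simp only [ha1]
      rw [← hb]
      exact hbo.2 (by decide)
    have e2 : a2 i0 = 0 := by
      simp only [ha2]
      rw [← hb]
      exact hbo.2 (by decide)
    simp [e1, e2]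
  have hcs : ∑ i, c i * √(a1 i ^ 2 + a2 i ^ 2) ≤ 2.236068 := by
    have e1 : ∀ i, c i * √(a1 i ^ 2 + a2 i ^ 2) ≤
        (1.118 / 2) * (c i * a1 i ^ 2 + c i * a2 i ^ 2) + (1 / (2 * 1.118)) * c i := by
      intro i
      set ρ := √(a1 i ^ 2 + a2 i ^ 2) with hρ
      have hρ2 : ρ ^ 2 = a1 i ^ 2 + a2 i ^ 2 := Real.sq_sqrt (by positivity)
      have e2 : ρ ≤ (1.118 / 2) * ρ ^ 2 + 1 / (2 * 1.118) := by
        linarith only [sq_nonneg (1.118 * ρ - 1), sq_nonneg ((1 : ℝ) * (559 : ℝ) * ((1 : ℝ) * ρ) - (500 : ℝ) * (1 : ℝ))]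
      have := mul_le_mul_of_nonneg_left e2 (h3 i)
      rw [hρ2] at this
      linarith only [this]
    have e3 : ∑ i, c i * √(a1 i ^ 2 + a2 i ^ 2)
        = ∑ i ∈ Finset.univ.erase i0, c i * √(a1 i ^ 2 + a2 i ^ 2) := by
      rw [Finset.sum_erase]
      rw [hr0, mul_zero]
    have e4 : ∑ i ∈ Finset.univ.erase i0, c i = 3 - c i0 := by
      rw [← h4, ← Finset.add_sum_erase _ _ (Finset.mem_univ i0)]
      ring
    have e5 : ∑ i ∈ Finset.univ.erase i0, (c i * a1 i ^ 2 + c i * a2 i ^ 2) ≤ 2 := by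
      refine (Finset.sum_le_sum_of_subset_of_nonneg (Finset.erase_subset _ _) ?_).trans ?_
      · intro i _ _
        have := h3 i
        positivity
      · rw [Finset.sum_add_distrib, hsq 1, hsq 2]
        norm_num
    rw [e3]
    refine (Finset.sum_le_sum fun i _ => e1 i).trans ?_
    rw [Finset.sum_add_distrib, ← Finset.mul_sum, ← Finset.mul_sum, e4]
    generalize ∑ i ∈ Finset.univ.erase i0, (c i * a1 i ^ 2 + c i * a2 i ^ 2) = X at e5 ⊢
    norm_num
    linarith only [h7, e5]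
  obtain ⟨θ, hθ⟩ := exists_angle c a1 a2
  set f1 : E3 := cos θ • b 1 + sin θ • b 2 with hf1
  set f2 : E3 := cos θ • b 2 + (-sin θ) • b 1 with hf2
  have hn : gauge K (T f1) + gauge K (T f2) ≤ 4 * 2.236068 / 3.141592 := by
    have e1 : gauge K (T f1) + gauge K (T f2) ≤
        ∑ i, c i * (|a1 i * cos θ + a2 i * sin θ| + |a2 i * cos θ + (-a1 i) * sin θ|) := by
      refine (add_le_add (hg f1) (hg f2)).trans (le_of_eq ?_)
      rw [← Finset.sum_add_distrib]
      refine Finset.sum_congr rfl fun i _ => ?_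
      simp only [hf1, hf2, inner_add_right, real_inner_smul_right, ha1, ha2]
      rw [← mul_add]
      congr 3 <;> ring
    have e2 := pi_gt_d6
    rw [le_div_iff₀ (by norm_num)]
    have e3 : 0 ≤ gauge K (T f1) + gauge K (T f2) := add_nonneg (gauge_nonneg _) (gauge_nonneg _)
    linarith only [hcs, hθ, e1, e2, e3, mul_nonneg_of_nonpos_of_nonpos (Mathlib.Tactic.Linarith.sub_nonpos_of_le e1) (le_of_lt (Mathlib.Tactic.Linarith.sub_neg_of_lt e2)), mul_nonneg_of_nonpos_of_nonpos (le_of_lt (Mathlib.Tactic.Linarith.sub_neg_of_lt e2)) (Mathlib.Tactic.Linarith.sub_nonpos_of_le e3)]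
  have hn0 : gauge K (T (b 0)) ≤ 1 := by rw [hb]; exact gauge_le_one_of_mem (h2 i0)
  set P : E3 := (1.8791 : ℝ) • T (b 0) with hP
  set Q : E3 := (1.6704 : ℝ) • T f1 with hQ
  set R : E3 := (1.6704 : ℝ) • T f2 with hR
  let p : Fin 6 → E3 := ![P, -P, Q, -Q, R, -R]
  have hsub : K ⊆ convexHull ℝ (range p) := by
    intro x hx
    obtain ⟨y, hy, rfl⟩ := h6 x hx
    have hp : ∀ j, p j ∈ convexHull ℝ (range p) := fun j => subset_convexHull ℝ _ ⟨j, rfl⟩
    set y0 := ⟪b 0, y⟫ with hy0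
    set y1 := ⟪b 1, y⟫ with hy1
    set y2 := ⟪b 2, y⟫ with hy2
    have hrep : y = y0 • b 0 + y1 • b 1 + y2 • b 2 := by
      conv_lhs => rw [← b.sum_repr' y]
      simp only [Fin.sum_univ_three, hy0, hy1, hy2]
    have hsum : y0 ^ 2 + y1 ^ 2 + y2 ^ 2 ≤ 1 := by
      have := b.sum_sq_inner_right y
      rw [Fin.sum_univ_three] at this
      linarith only [hy, this, norm_nonneg y, mul_nonneg_of_nonpos_of_nonpos (Mathlib.Tactic.Linarith.sub_nonpos_of_le hy) (Mathlib.Tactic.Linarith.sub_nonpos_of_le (norm_nonneg y))]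
    set z1 := cos θ * y1 + sin θ * y2 with hz1
    set z2 := cos θ * y2 - sin θ * y1 with hz2
    have hcs2 := cos_sq_add_sin_sq θ
    have hz : z1 ^ 2 + z2 ^ 2 = y1 ^ 2 + y2 ^ 2 := by
      rw [hz1, hz2]
      linear_combination (y1 ^ 2 + y2 ^ 2) * hcs2
    have hrep2 : y = y0 • b 0 + z1 • f1 + z2 • f2 := by
      have e1 : y1 = z1 * cos θ + z2 * (-sin θ) := by
        rw [hz1, hz2]
        linear_combination (-y1) * hcs2
      have e2 : y2 = z1 * sin θ + z2 * cos θ := by
        rw [hz1, hz2]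
        linear_combination (-y2) * hcs2
      have e3 : y0 • b 0 + z1 • f1 + z2 • f2 = y0 • b 0 + (z1 * cos θ + z2 * (-sin θ)) • b 1
          + (z1 * sin θ + z2 * cos θ) • b 2 := by
        rw [hf1, hf2]
        module
      rw [e3, ← e1, ← e2]
      exact hrep
    have hfin : T y = (y0 / 1.8791) • P + (z1 / 1.6704) • Q + (z2 / 1.6704) • R := by
      rw [hrep2, hP, hQ, hR]
      simp only [map_add, map_smul, smul_smul]
      congr 1
      · congr 1
        · congr 1
          field_simp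
        · congr 1
          field_simp
      · congr 1
        field_simp
    rw [hfin]
    refine mem_hull_six (convex_convexHull ℝ _) (hp 0) (hp 1) (hp 2) (hp 3) (hp 4) (hp 5) ?_
    rw [abs_div, abs_div, abs_div, abs_of_pos (by norm_num : (0 : ℝ) < 1.8791),
      abs_of_pos (by norm_num : (0 : ℝ) < 1.6704)]
    have s0 := sq_abs y0
    have s1 := sq_abs z1
    have s2 := sq_abs z2
    have key : ∀ t a : ℝ, t / a ≤ (t ^ 2 + (1 / a) ^ 2) / 2 := fun t a => by
      rw [div_eq_mul_one_div t a]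
      linarith only [sq_nonneg (t - 1 / a), sq_nonneg ((1 : ℝ) * t - (1 : ℝ) * ((1 : ℝ) / a))]
    have k0 := key |y0| 1.8791
    have k1 := key |z1| 1.6704
    have k2 := key |z2| 1.6704
    have k3 : (1 / 1.8791 : ℝ) ^ 2 + (1 / 1.6704 : ℝ) ^ 2 + (1 / 1.6704 : ℝ) ^ 2 ≤ 1 := by
      norm_num
    linarith only [hsum, hz, s0, s1, s2, k0, k1, k2]
  have hbdd : BddBelow {s : ℝ | ∃ (N : ℕ) (p : Fin N → E3),
      K ⊆ convexHull ℝ (Set.range p) ∧ s = ∑ i, gauge K (p i)} := by
    refine ⟨0, ?_⟩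
    rintro s ⟨N, p, -, rfl⟩
    exact Finset.sum_nonneg fun i _ => gauge_nonneg _
  refine (csInf_le hbdd ⟨6, p, hsub, rfl⟩).trans ?_
  simp only [p, Fin.sum_univ_succ, Fin.sum_univ_zero, Matrix.cons_val_zero, Matrix.cons_val_succ,
    gauge_neg hsym, hP, hQ, hR, hgs]
  rw [abs_of_pos (by norm_num : (0 : ℝ) < 1.8791), abs_of_pos (by norm_num : (0 : ℝ) < 1.6704)]
  norm_num at hn ⊢
  linarith only [hn0, hn]

end Pool.Agent.Work.MP_8a50a7_gt
end
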